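import Pool.Agent.Clock.Struct
import Pool.Agent.Clock.Field
import Pool.Agent.Clock.Torus
import Pool.Agent.Clock.NonHom
import Pool.Agent.Clock.ExpStruct
import Pool.Agent.Clock.DefY
import Pool.Agent.Clock.HypH

/-!
# A definable universal cover without transitive symmetry

There is a smooth vector field on the torus `T^8` whose lift to the universal cover `ℝ^8` is
definable, in a definable manifold structure over an o-minimal expansion of the real field
(the real field with the exponential function, whose o-minimality is proved here),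
and no group acts transitively on `ℝ^8` preserving the lifted vector field.
-/

open scoped ContDiff Manifold
open Clock

namespace Pool.Agent.Results.MP_68b8f4_gt.NonHomogeneousUniversalCover

/-- a compact connected Hausdorff smooth manifold modelled on the normed space `E` -/
structure CompactManifold (E : Type) [NormedAddCommGroup E] [NormedSpace ℝ E] where
  carrier : Type
  [top : TopologicalSpace carrier]
  [charted : ChartedSpace E carrier]
  [smooth : IsManifold 𝓘(ℝ, E) ∞ carrier]
  [t2 : T2Space carrier]
  [compact : CompactSpace carrier]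
  [connected : ConnectedSpace carrier]

attribute [instance] CompactManifold.top CompactManifold.charted CompactManifold.smooth
  CompactManifold.t2 CompactManifold.compact CompactManifold.connected

section Defs

variable {E : Type} [NormedAddCommGroup E] [NormedSpace ℝ E]

/-- vector fields (without regularity) on the manifold `N` modelled on `E` -/
abbrev VField (E : Type) [NormedAddCommGroup E] [NormedSpace ℝ E] (N : Type) [TopologicalSpace N]
    [ChartedSpace E N] : Type := ∀ x : N, TangentSpace 𝓘(ℝ, E) x

/-- `τ` is a smooth vector field on the compact manifold `M` -/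
def SmoothField {M : CompactManifold E} (τ : VField E M.carrier) : Prop :=
  ContMDiff 𝓘(ℝ, E) 𝓘(ℝ, E).tangent ∞ (fun m => (⟨m, τ m⟩ : TangentBundle 𝓘(ℝ, E) M.carrier))

/-- `π : N → M` is a smooth covering of manifolds modelled on `E` and `N` is contractible
(so `N` is the universal cover of `M`) -/
def ContractibleCover (E : Type) [NormedAddCommGroup E] [NormedSpace ℝ E] {N M : Type}
    [TopologicalSpace N] [ChartedSpace E N] [TopologicalSpace M] [ChartedSpace E M]
    (π : N → M) : Prop :=
  IsCoveringMap π ∧ Function.Surjective π ∧ IsLocalDiffeomorph 𝓘(ℝ, E) 𝓘(ℝ, E) ∞ π ∧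
    ContractibleSpace N

/-- `g : N → M` is a smooth map whose differential maps the vector field `V` on `N` to the
vector field `W` on `M` -/
def Relates {N M : Type} [TopologicalSpace N] [ChartedSpace E N] [TopologicalSpace M]
    [ChartedSpace E M] (g : N → M) (V : VField E N) (W : VField E M) : Prop :=
  ContMDiff 𝓘(ℝ, E) 𝓘(ℝ, E) ∞ g ∧ ∀ x : N, push g x (V x) = W (g x)

/-- some group acts transitively on `N`, each element acting as a smooth map which preserves the
vector field `V` -/
def HasTransitiveSymmetry {N : Type} [TopologicalSpace N] [ChartedSpace E N]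
    (V : VField E N) : Prop :=
  ∃ (G : Type) (_ : Group G) (_ : MulAction G N),
    (∀ g : G, Relates (fun x : N => g • x) V V) ∧ MulAction.IsPretransitive G N

/-- some smooth map `N → N` which preserves the vector field `V` maps `p` to `q` -/
def Moves {N : Type} [TopologicalSpace N] [ChartedSpace E N] (V : VField E N) (p q : N) : Prop :=
  ∃ g : N → N, Relates g V V ∧ g p = q

/-- A compact connected smooth manifold `M` with a smooth vector field `τ`, a smooth covering
`π : N → M` with `N` contractible, and the lift of `τ` to `N`. -/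
structure LiftedField (E N : Type) [NormedAddCommGroup E] [NormedSpace ℝ E] [TopologicalSpace N]
    [ChartedSpace E N] where
  M : CompactManifold E
  τ : VField E M.carrier
  τ_smooth : SmoothField τ
  π : N → M.carrier
  cover : ContractibleCover E π
  lift : VField E N
  lift_eq : Relates π lift τ

end Defs

theorem result : ∃ F : LiftedField (Fin 8 → ℝ) (Fin 8 → ℝ), HypH 8 (Fin 8 → ℝ) F.lift ∧
    (∃ p q : Fin 8 → ℝ, ¬ Moves F.lift p q) ∧ ¬ HasTransitiveSymmetry F.lift := by
  obtain ⟨Φ, ψ, X, hΦ, hψ, hX, hd, hper, hconj, p, q, T, hp, hq⟩ := exists_field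
  obtain ⟨M, i1, i2, i3, i4, i5, i6, XM, π, h1, h2, h3, h4, h5⟩ := torus_pack X hX hper
  obtain ⟨S, -, hexp⟩ := exists_expStructure
  have key : ∀ g : (Fin 8 → ℝ) → (Fin 8 → ℝ),
        ContMDiff 𝓘(ℝ, Fin 8 → ℝ) 𝓘(ℝ, Fin 8 → ℝ) ∞ g →
        (∀ x, mfderiv 𝓘(ℝ, Fin 8 → ℝ) 𝓘(ℝ, Fin 8 → ℝ) g x (X x) = X (g x)) → g p ≠ q := by
    intro g hg hgX
    refine no_symmetry hψ hX hd hp hq g (contMDiff_iff_contDiff.1 hg) ?_
    intro x
    have := hgX x
    rw [mfderiv_eq_fderiv] at this
    exact this
  refine ⟨⟨@CompactManifold.mk (Fin 8 → ℝ) _ _ M i1 i2 i3 i4 i5 i6, XM, h1, π,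
    ⟨h2, h3, h4, inferInstance⟩, X, ⟨h4.contMDiff, h5⟩⟩, ?_, ?_, ?_⟩
  · exact hypH_of_conj S Φ hΦ X Y8 hconj (Y8_def S hexp)
  · refine ⟨p, q, ?_⟩
    rintro ⟨g, hg, hgp⟩
    exact key g hg.1 hg.2 hgp
  · rintro ⟨G, _, _, hs, htr⟩
    obtain ⟨g, hg⟩ := htr.exists_smul_eq p q
    exact key (fun x => g • x) (hs g).1 (hs g).2 hg

end Pool.Agent.Results.MP_68b8f4_gt.NonHomogeneousUniversalCover
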